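import Mathlib

namespace Pool.Agent.MP_7cc102_co.H75

/-- `S` is a total dominating set of `G`: every vertex has a neighbour in `S`. -/
def IsTotalDom {V : Type*} (G : SimpleGraph V) (S : Finset V) : Prop :=
  ∀ v : V, ∃ w ∈ S, G.Adj v w

/-- The largest number of members of the family `F` that contain one common vertex. -/
def maxMult {V : Type*} [Fintype V] [DecidableEq V] (F : Multiset (Finset V)) : ℕ :=
  Finset.univ.sup fun v : V => F.countP fun S => v ∈ S

/-- The fractional total domatic number. -/
noncomputable def FTD {V : Type*} [Fintype V] [DecidableEq V] (G : SimpleGraph V) : ℝ :=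
  sSup {r : ℝ | ∃ F : Multiset (Finset V), F ≠ 0 ∧ (∀ S ∈ F, IsTotalDom G S) ∧
    r = (Multiset.card F : ℝ) / (maxMult F : ℝ)}

end Pool.Agent.MP_7cc102_co.H75
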