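import Mathlib
import Pool.Agent.MP_7cc102_co.H75.Defs

namespace Pool.Agent.MP_7cc102_co.H75

open Finset

variable {V : Type*} [DecidableEq V] (G : SimpleGraph V) [DecidableRel G.Adj]

/-- elementwise claw-freeness -/
def CF (G : SimpleGraph V) : Prop :=
  ∀ v a b c, G.Adj v a → G.Adj v b → G.Adj v c → a ≠ b → a ≠ c → b ≠ c →
    G.Adj a b ∨ G.Adj a c ∨ G.Adj b c

omit [DecidableEq V] [DecidableRel G.Adj] in
theorem cf_of_not_ind
    (h : ¬ (completeBipartiteGraph (Fin 1) (Fin 3)).IsIndContained G) : CF G := by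
  intro v a b c ha hb hc hab hac hbc
  by_contra hcon
  push Not at hcon
  obtain ⟨h1, h2, h3⟩ := hcon
  apply h
  have h1' : ¬ G.Adj b a := fun x => h1 x.symm
  have h2' : ¬ G.Adj c a := fun x => h2 x.symm
  have h3' : ¬ G.Adj c b := fun x => h3 x.symm
  have n1 := ha.ne
  have n2 := hb.ne
  have n3 := hc.ne
  refine ⟨⟨⟨Sum.elim (fun _ => v) ![a, b, c], ?_⟩, ?_⟩⟩
  · rintro (x | x) (y | y) hxy
    · rw [Subsingleton.elim x y]
    · fin_cases y <;> simp_all
    · fin_cases x <;> simp_all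
    · fin_cases x <;> fin_cases y <;> simp_all
  · rintro (x | x) (y | y)
    · simp
    · fin_cases y <;> simp [ha, hb, hc]
    · fin_cases x <;> simp [ha.symm, hb.symm, hc.symm]
    · fin_cases x <;> fin_cases y <;> simp [h1, h2, h3, h1', h2', h3']

/-- neighbours of `X` inside `W` -/
def nb (W X : Finset V) : Finset V := W.filter fun y => ∃ x ∈ X, G.Adj x y

/-- isolated vertices of the subgraph induced on `X` -/
def iso (X : Finset V) : Finset V := X.filter fun x => ∀ y ∈ X, ¬ G.Adj x y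

omit [DecidableEq V] in
theorem mem_nb {W X : Finset V} {y : V} : y ∈ nb G W X ↔ y ∈ W ∧ ∃ x ∈ X, G.Adj x y := by
  simp [nb]

omit [DecidableEq V] in
theorem mem_iso {X : Finset V} {x : V} : x ∈ iso G X ↔ x ∈ X ∧ ∀ y ∈ X, ¬ G.Adj x y := by
  simp [iso]

omit [DecidableEq V] in
theorem iso_subset (X : Finset V) : iso G X ⊆ X := filter_subset _ _

theorem union_subset_nb {W X : Finset V} (hX : X ⊆ W) :
    (X \ iso G X) ∪ nb G W (iso G X) ⊆ nb G W X := by
  intro y hy
  rcases mem_union.1 hy with hy | hy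
  · obtain ⟨h1, h2⟩ := mem_sdiff.1 hy
    rw [mem_iso] at h2
    push Not at h2
    obtain ⟨z, hz, hadj⟩ := h2 h1
    exact (mem_nb G).2 ⟨hX h1, z, hz, hadj.symm⟩
  · obtain ⟨h1, x, hx, hadj⟩ := (mem_nb G).1 hy
    exact (mem_nb G).2 ⟨h1, x, iso_subset G X hx, hadj⟩

omit [DecidableEq V] in
theorem not_mem_of_mem_nb_iso {W X : Finset V} {y : V} (hy : y ∈ nb G W (iso G X)) : y ∉ X := by
  obtain ⟨_, x, hx, hadj⟩ := (mem_nb G).1 hy
  intro hyX
  exact ((mem_iso G).1 hx).2 y hyX hadj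

theorem card_union_eq (W X : Finset V) :
    ((X \ iso G X) ∪ nb G W (iso G X)).card + (iso G X).card
      = X.card + (nb G W (iso G X)).card := by
  rw [card_union_of_disjoint]
  · have := card_sdiff_add_card_eq_card (iso_subset G X)
    omega
  · rw [disjoint_right]
    intro y hy hy'
    exact not_mem_of_mem_nb_iso G hy (mem_sdiff.1 hy').1

theorem card_le_two (hcf : CF G) (X : Finset V) (a : V) :
    ((iso G X).filter fun i => G.Adj i a).card ≤ 2 := by
  by_contra hcon
  push Not at hcon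
  obtain ⟨x, y, z, hx, hy, hz, hxy, hxz, hyz⟩ := two_lt_card_iff.1 hcon
  rw [mem_filter, mem_iso] at hx hy hz
  rcases hcf a x y z hx.2.symm hy.2.symm hz.2.symm hxy hxz hyz with h | h | h
  · exact hx.1.2 y hy.1.1 h
  · exact hx.1.2 z hz.1.1 h
  · exact hy.1.2 z hz.1.1 h

omit [DecidableEq V] in
theorem double_count (W I : Finset V) :
    ∑ i ∈ I, (W.filter (G.Adj i)).card
      = ∑ a ∈ nb G W I, (I.filter fun i => G.Adj i a).card := by
  have h1 : ∀ i ∈ I, (W.filter (G.Adj i)).card = ((nb G W I).filter (G.Adj i)).card := by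
    intro i hi
    congr 1
    ext y
    simp only [mem_filter, mem_nb]
    constructor
    · rintro ⟨h1, h2⟩
      exact ⟨⟨h1, i, hi, h2⟩, h2⟩
    · rintro ⟨⟨h1, _⟩, h2⟩
      exact ⟨h1, h2⟩
  rw [sum_congr rfl h1]
  simp only [card_filter]
  exact sum_comm

theorem count_le (hcf : CF G) (W X : Finset V) (k : ℕ)
    (hdeg : ∀ x ∈ X, k ≤ (W.filter (G.Adj x)).card) :
    k * (iso G X).card ≤ 2 * (nb G W (iso G X)).card := by
  have h1 : k * (iso G X).card ≤ ∑ i ∈ iso G X, (W.filter (G.Adj i)).card := by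
    rw [mul_comm, ← smul_eq_mul]
    exact card_nsmul_le_sum _ _ _ fun i hi => hdeg i (iso_subset G X hi)
  have h2 : ∑ a ∈ nb G W (iso G X), ((iso G X).filter fun i => G.Adj i a).card
      ≤ 2 * (nb G W (iso G X)).card := by
    rw [mul_comm, ← smul_eq_mul]
    exact sum_le_card_nsmul _ _ _ fun a _ => card_le_two G hcf X a
  rw [double_count] at h1
  omega

theorem hall_le (hcf : CF G) {W X : Finset V} (hX : X ⊆ W)
    (hdeg : ∀ x ∈ X, 2 ≤ (W.filter (G.Adj x)).card) : X.card ≤ (nb G W X).card := by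
  have h1 := count_le G hcf W X 2 hdeg
  have h2 := card_union_eq G W X
  have h3 := card_le_card (union_subset_nb G hX)
  omega

theorem tight (hcf : CF G) {W X : Finset V} (hX : X ⊆ W)
    (hdeg : ∀ x ∈ X, 2 ≤ (W.filter (G.Adj x)).card) (ht : (nb G W X).card ≤ X.card) :
    nb G W X = (X \ iso G X) ∪ nb G W (iso G X) ∧
    (nb G W (iso G X)).card = (iso G X).card ∧
    ∀ a ∈ nb G W (iso G X), ∃ u ∈ iso G X, ∃ u' ∈ iso G X, u ≠ u' ∧ G.Adj a u ∧ G.Adj a u' := by
  have h1 := count_le G hcf W X 2 hdeg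
  have h2 := card_union_eq G W X
  have h3 := card_le_card (union_subset_nb G hX)
  refine ⟨(eq_of_subset_of_card_le (union_subset_nb G hX) (by omega)).symm, by omega, ?_⟩
  intro a ha
  by_contra hcon
  have hlt : ((iso G X).filter fun i => G.Adj i a).card < 2 := by
    by_contra h
    push Not at h
    obtain ⟨u, hu, u', hu', hne⟩ := one_lt_card.1 h
    rw [mem_filter] at hu hu'
    exact hcon ⟨u, hu.1, u', hu'.1, hne, hu.2.symm, hu'.2.symm⟩
  have h4 : 2 * (iso G X).card ≤ ∑ i ∈ iso G X, (W.filter (G.Adj i)).card := by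
    rw [mul_comm, ← smul_eq_mul]
    exact card_nsmul_le_sum _ _ _ fun i hi => hdeg i (iso_subset G X hi)
  rw [double_count] at h4
  have h5 : ∑ a ∈ nb G W (iso G X), ((iso G X).filter fun i => G.Adj i a).card
      < ∑ _a ∈ nb G W (iso G X), 2 :=
    sum_lt_sum (fun a _ => card_le_two G hcf X a) ⟨a, ha, hlt⟩
  rw [sum_const, smul_eq_mul] at h5
  omega

/-- Hall's theorem in the form used here. -/
theorem exists_matching (A B : Finset V)
    (h : ∀ X ⊆ A, X.card ≤ (nb G B X).card) :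
    ∃ m : V → V, Set.InjOn m A ∧ ∀ v ∈ A, m v ∈ B ∧ G.Adj v (m v) := by
  have := (Finset.all_card_le_biUnion_card_iff_exists_injective
    (fun x : A => B.filter (G.Adj x))).1 (by
      intro s
      have h1 := h (s.map (Function.Embedding.subtype _)) (by
        intro x hx
        obtain ⟨y, _, rfl⟩ := mem_map.1 hx
        exact y.2)
      rw [card_map] at h1
      refine h1.trans (card_le_card ?_)
      intro y hy
      obtain ⟨h2, x, hx, hadj⟩ := (mem_nb G).1 hy
      obtain ⟨x', hx', rfl⟩ := mem_map.1 hx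
      exact mem_biUnion.2 ⟨x', hx', mem_filter.2 ⟨h2, hadj⟩⟩)
  obtain ⟨f, hf, hf'⟩ := this
  refine ⟨fun v => if hv : v ∈ A then f ⟨v, hv⟩ else v, ?_, ?_⟩
  · intro x hx y hy hxy
    have hx' : x ∈ A := hx
    have hy' : y ∈ A := hy
    simp only [hx', hy', dif_pos] at hxy
    exact congrArg Subtype.val (hf hxy)
  · intro v hv
    simp only [hv, dif_pos]
    exact mem_filter.1 (hf' ⟨v, hv⟩)

omit [DecidableRel G.Adj] in
/-- The growth lemma. -/
theorem grow (m : V → V) (X : Finset V) (hm : ∀ v ∈ X, G.Adj v (m v)) (hinj : Set.InjOn m X)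
    (hsur : ∀ Y ⊆ X, Y.Nonempty → ∃ v ∈ Y, ∃ y, G.Adj v y ∧ y ∉ Y.image m) (c0 : V → Bool) :
    ∃ c : V → Bool, (∀ y, y ∉ X.image m → c y = c0 y) ∧
      ∀ v ∈ X, ∃ y z, G.Adj v y ∧ G.Adj v z ∧ c y ≠ c z := by
  induction' hn : X.card with n ih generalizing X c0
  · rw [card_eq_zero] at hn
    subst hn
    exact ⟨c0, fun _ _ => rfl, fun v hv => absurd hv (notMem_empty v)⟩
  · obtain ⟨v, hv, y, hvy, hy⟩ := hsur X Subset.rfl (card_pos.1 (by omega))
    obtain ⟨c, hc1, hc2⟩ := ih (X.erase v) (fun w hw => hm w (mem_of_mem_erase hw))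
      (hinj.mono (by intro w hw; exact mem_of_mem_erase hw))
      (fun Y hY hne => hsur Y (hY.trans (erase_subset _ _)) hne)
      (Function.update c0 (m v) (!c0 y)) (by rw [card_erase_of_mem hv]; omega)
    have hsub : (X.erase v).image m ⊆ X.image m := image_subset_image (erase_subset _ _)
    have hmv : m v ∈ X.image m := mem_image_of_mem m hv
    have hkey : ∀ z, z ∉ X.image m → c z = c0 z := by
      intro z hz
      rw [hc1 z fun h => hz (hsub h), Function.update_of_ne]
      rintro rfl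
      exact hz hmv
    refine ⟨c, hkey, ?_⟩
    intro w hw
    by_cases hwv : w = v
    · subst hwv
      refine ⟨y, m w, hvy, hm w hw, ?_⟩
      rw [hkey y hy, hc1 (m w), Function.update_self]
      · cases c0 y <;> simp
      · intro h
        obtain ⟨u, hu, huw⟩ := mem_image.1 h
        exact (mem_erase.1 hu).1 (hinj (mem_of_mem_erase hu) hw huw)
    · exact hc2 w (mem_erase.2 ⟨hwv, hw⟩)

omit [DecidableEq V] [DecidableRel G.Adj] in
theorem closed_all (hc : G.Connected) (Z : Finset V) (hne : Z.Nonempty)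
    (hcl : ∀ x ∈ Z, ∀ y, G.Adj x y → y ∈ Z) : ∀ v, v ∈ Z := by
  obtain ⟨z, hz⟩ := hne
  intro v
  have := (SimpleGraph.reachable_iff_reflTransGen z v).1 (hc.preconnected z v)
  induction this with
  | refl => exact hz
  | tail _ h ih => exact hcl _ ih _ h

end Pool.Agent.MP_7cc102_co.H75
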