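import Mathlib
import Pool.Agent.MP_7cc102_co.H75.Core

namespace Pool.Agent.MP_7cc102_co.H75

open Finset

variable {V : Type*} [Fintype V] [DecidableEq V] (G : SimpleGraph V)

theorem countP_le_maxMult (F : Multiset (Finset V)) (v : V) :
    F.countP (fun S => v ∈ S) ≤ maxMult F :=
  Finset.le_sup (f := fun v : V => F.countP fun S => v ∈ S) (mem_univ v)

theorem card_le_sum_countP (F : Multiset (Finset V)) (hF : ∀ S ∈ F, S.Nonempty) :
    Multiset.card F ≤ ∑ v : V, F.countP (fun S => v ∈ S) := by
  induction F using Multiset.induction_on with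
  | empty => simp
  | cons S F ih =>
    have h1 := ih fun T hT => hF T (Multiset.mem_cons_of_mem hT)
    obtain ⟨w, hw⟩ := hF S (Multiset.mem_cons_self S F)
    simp only [Multiset.countP_cons, Multiset.card_cons, sum_add_distrib]
    have h2 : 1 ≤ ∑ v : V, (if v ∈ S then 1 else 0) := by
      have := single_le_sum (f := fun v : V => if v ∈ S then 1 else 0)
        (fun i _ => Nat.zero_le _) (mem_univ w)
      simpa [hw] using this
    omega

theorem card_le_mul_maxMult [Nonempty V] (F : Multiset (Finset V))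
    (hF : ∀ S ∈ F, IsTotalDom G S) : Multiset.card F ≤ Fintype.card V * maxMult F := by
  have h1 := card_le_sum_countP F (by
    intro S hS
    obtain ⟨w, hw, _⟩ := hF S hS (Classical.arbitrary V)
    exact ⟨w, hw⟩)
  have h2 : ∑ v : V, F.countP (fun S => v ∈ S) ≤ Fintype.card V * maxMult F := by
    rw [← smul_eq_mul, ← card_univ]
    exact sum_le_card_nsmul _ _ _ fun v _ => countP_le_maxMult F v
  omega

theorem le_FTD [Nonempty V] (F : Multiset (Finset V)) (hF0 : F ≠ 0)
    (hF : ∀ S ∈ F, IsTotalDom G S) (M : ℕ) (hM : ∀ v : V, F.countP (fun S => v ∈ S) ≤ M) :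
    (Multiset.card F : ℝ) / (M : ℝ) ≤ FTD G := by
  have hbdd : BddAbove {r : ℝ | ∃ F : Multiset (Finset V), F ≠ 0 ∧ (∀ S ∈ F, IsTotalDom G S) ∧
      r = (Multiset.card F : ℝ) / (maxMult F : ℝ)} := by
    refine ⟨Fintype.card V, ?_⟩
    rintro r ⟨F, _, hF, rfl⟩
    apply div_le_of_le_mul₀ (Nat.cast_nonneg _) (Nat.cast_nonneg _)
    exact_mod_cast card_le_mul_maxMult G F hF
  have hpos : 0 < maxMult F := by
    have h1 := card_le_mul_maxMult G F hF
    have h2 := Multiset.card_pos.2 hF0
    rcases Nat.eq_zero_or_pos (maxMult F) with h | h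
    · rw [h] at h1
      omega
    · exact h
  have hle : maxMult F ≤ M := Finset.sup_le fun v _ => hM v
  refine le_trans ?_ (le_csSup hbdd ⟨F, hF0, hF, rfl⟩)
  apply div_le_div_of_nonneg_left (Nat.cast_nonneg _)
  · exact_mod_cast hpos
  · exact_mod_cast hle

variable [DecidableRel G.Adj]

theorem deg_filter (k : ℕ) (hδ : k ≤ G.minDegree) (x : V) :
    k ≤ (univ.filter (G.Adj x)).card := by
  have := G.minDegree_le_degree x
  rw [← SimpleGraph.card_neighborFinset_eq_degree, SimpleGraph.neighborFinset_eq_filter] at this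
  exact hδ.trans this

theorem surplus_two (hc : G.Connected) (hcf : CF G)
    (hdeg : ∀ x, 2 ≤ (univ.filter (G.Adj x)).card) (m : V → V) (hinj : Function.Injective m)
    (hm : ∀ v, G.Adj v (m v)) (v : V) (Y : Finset V) (hv : v ∉ Y) (hmv : m v ∉ Y)
    (hne : Y.Nonempty) : ∃ x ∈ Y, ∃ y, G.Adj x y ∧ y ∉ Y.image m := by
  by_contra hcon
  push Not at hcon
  have hsub : nb G univ Y ⊆ Y.image m := by
    intro y hy
    obtain ⟨_, x, hx, hadj⟩ := (mem_nb G).1 hy
    exact hcon x hx y hadj
  have ht : (nb G univ Y).card ≤ Y.card := (card_le_card hsub).trans card_image_le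
  obtain ⟨h1, h2, h3⟩ := tight G hcf (subset_univ Y) (fun x _ => hdeg x) ht
  rcases (iso G Y).eq_empty_or_nonempty with hI | hI
  · apply hv
    apply closed_all G hc Y hne
    intro x hx y hxy
    have : y ∈ nb G univ Y := (mem_nb G).2 ⟨mem_univ _, x, hx, hxy⟩
    rw [h1, hI] at this
    rcases mem_union.1 this with h | h
    · exact (mem_sdiff.1 h).1
    · obtain ⟨_, z, hz, _⟩ := (mem_nb G).1 h
      exact absurd hz (notMem_empty z)
  · have hall := closed_all G hc (iso G Y ∪ nb G univ (iso G Y))
      (hI.mono subset_union_left) (by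
        intro x hx y hxy
        rcases mem_union.1 hx with hx | hx
        · exact mem_union_right _ ((mem_nb G).2 ⟨mem_univ _, x, hx, hxy⟩)
        · obtain ⟨u, hu, u', hu', hne, hau, hau'⟩ := h3 x hx
          by_cases hyu : y = u
          · exact mem_union_left _ (hyu ▸ hu)
          by_cases hyu' : y = u'
          · exact mem_union_left _ (hyu' ▸ hu')
          rcases hcf x y u u' hxy hau hau' hyu hyu' hne with h | h | h
          · exact mem_union_right _ ((mem_nb G).2 ⟨mem_univ _, u, hu, h.symm⟩)
          · exact mem_union_right _ ((mem_nb G).2 ⟨mem_univ _, u', hu', h.symm⟩)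
          · exact absurd h (((mem_iso G).1 hu).2 u' (iso_subset G Y hu')))
    have himg : (iso G Y).image m = nb G univ (iso G Y) := by
      apply eq_of_subset_of_card_le
      · intro y hy
        obtain ⟨i, hi, rfl⟩ := mem_image.1 hy
        exact (mem_nb G).2 ⟨mem_univ _, i, hi, hm i⟩
      · rw [card_image_of_injective _ hinj, h2]
    rcases mem_union.1 (hall (m v)) with h | h
    · exact hmv (iso_subset G Y h)
    · rw [← himg] at h
      obtain ⟨i, hi, hiv⟩ := mem_image.1 h
      exact hv (hinj hiv ▸ iso_subset G Y hi)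

theorem q1_bound (hc : G.Connected) (hcf : CF G)
    (hdeg : ∀ x, 2 ≤ (univ.filter (G.Adj x)).card) :
    2 - 4 / ((Fintype.card V : ℝ) + 2) ≤ FTD G := by
  have : Nonempty V := hc.nonempty
  obtain ⟨m, hinj', hm'⟩ := exists_matching G univ univ fun X hX =>
    hall_le G hcf hX fun x _ => hdeg x
  have hinj : Function.Injective m := fun x y h => hinj' (by simp) (by simp) h
  have hm : ∀ v, G.Adj v (m v) := fun v => (hm' v (mem_univ v)).2
  have hcol : ∀ v : V, ∃ c : V → Bool, ∀ x, x ≠ v → x ≠ m v →
      ∃ y z, G.Adj x y ∧ G.Adj x z ∧ c y ≠ c z := by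
    intro v
    obtain ⟨c, _, hc2⟩ := grow G m (univ.filter fun x => x ≠ v ∧ x ≠ m v) (fun x _ => hm x)
      hinj.injOn (by
        intro Y hY hne
        apply surplus_two G hc hcf hdeg m hinj hm v Y _ _ hne
        · intro h
          exact (mem_filter.1 (hY h)).2.1 rfl
        · intro h
          exact (mem_filter.1 (hY h)).2.2 rfl) (fun _ => true)
    exact ⟨c, fun x h1 h2 => hc2 x (mem_filter.2 ⟨mem_univ _, h1, h2⟩)⟩
  choose c hc using hcol
  let R : V × Bool → Finset V := fun p =>
    univ.filter fun y => c p.1 y = p.2 ∨ y = m p.1 ∨ y = m (m p.1)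
  have hR : ∀ p, IsTotalDom G (R p) := by
    rintro ⟨v, b⟩ x
    by_cases h1 : x = v
    · exact ⟨m v, mem_filter.2 ⟨mem_univ _, Or.inr (Or.inl rfl)⟩, h1 ▸ hm x⟩
    by_cases h2 : x = m v
    · exact ⟨m (m v), mem_filter.2 ⟨mem_univ _, Or.inr (Or.inr rfl)⟩, h2 ▸ hm x⟩
    obtain ⟨y, z, hy, hz, hne⟩ := hc v x h1 h2
    by_cases h3 : c v y = b
    · exact ⟨y, mem_filter.2 ⟨mem_univ _, Or.inl h3⟩, hy⟩
    · refine ⟨z, mem_filter.2 ⟨mem_univ _, Or.inl ?_⟩, hz⟩
      revert hne h3
      cases c v y <;> cases c v z <;> cases b <;> simp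
  have key := le_FTD G ((univ : Finset (V × Bool)).val.map R) (by
      intro h
      have := congrArg Multiset.card h
      simp at this) (by
      intro S hS
      obtain ⟨p, _, rfl⟩ := Multiset.mem_map.1 hS
      exact hR p) (Fintype.card V + 2) (by
      intro y
      rw [Multiset.countP_map, ← Finset.filter_val, ← Finset.card_def, card_filter,
        Fintype.sum_prod_type]
      have h1 : ∀ v : V, ∑ b : Bool, (if y ∈ R (v, b) then 1 else 0)
          ≤ 1 + ((if y = m v then 1 else 0) + (if y = m (m v) then 1 else 0)) := by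
        intro v
        simp only [R, mem_filter, mem_univ, true_and, Fintype.sum_bool]
        by_cases h1 : y = m v <;> by_cases h2 : y = m (m v) <;> cases c v y <;> simp [h1, h2] <;> split_ifs <;> omega
      have h2 : ∀ f : V → V, Function.Injective f →
          ∑ v : V, (if y = f v then 1 else 0) ≤ 1 := by
        intro f hf
        rw [← card_filter, card_le_one]
        intro a ha b hb
        exact hf ((mem_filter.1 ha).2.symm.trans (mem_filter.1 hb).2)
      have h3 := sum_le_sum fun v (_ : v ∈ (univ : Finset V)) => h1 v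
      rw [sum_add_distrib, sum_add_distrib] at h3
      have h4 := h2 m hinj
      have h5 := h2 (fun v => m (m v)) (hinj.comp hinj)
      simp only [sum_const, card_univ, smul_eq_mul, mul_one] at h3
      omega)
  refine le_trans (le_of_eq ?_) key
  simp only [Multiset.card_map, card_val, card_univ, Fintype.card_prod, Fintype.card_bool]
  push_cast
  field_simp
  ring

end Pool.Agent.MP_7cc102_co.H75
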