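import Mathlib
import Pool.Agent.MP_7cc102_co.H75.Q1

namespace Pool.Agent.MP_7cc102_co.H75

open Finset

variable {V : Type*} [Fintype V] [DecidableEq V] (G : SimpleGraph V) [DecidableRel G.Adj]

/-- every vertex sees both colours -/
def Good (G : SimpleGraph V) (c : V → Bool) : Prop :=
  ∀ v, ∃ y z, G.Adj v y ∧ G.Adj v z ∧ c y ≠ c z

theorem surplus_three (hc : G.Connected) (hcf : CF G)
    (hdeg : ∀ x, 3 ≤ (univ.filter (G.Adj x)).card) (Y : Finset V) (v : V) (hv : v ∉ Y)
    (hne : Y.Nonempty) : Y.card < (nb G univ Y).card := by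
  by_contra hcon
  push Not at hcon
  obtain ⟨h1, h2, _⟩ := tight G hcf (subset_univ Y) (fun x _ => le_trans (by norm_num) (hdeg x)) hcon
  have h3 := count_le G hcf univ Y 3 fun x _ => hdeg x
  have hI : iso G Y = ∅ := card_eq_zero.1 (by omega)
  apply hv
  apply closed_all G hc Y hne
  intro x hx y hxy
  have : y ∈ nb G univ Y := (mem_nb G).2 ⟨mem_univ _, x, hx, hxy⟩
  rw [h1, hI] at this
  rcases mem_union.1 this with h | h
  · exact (mem_sdiff.1 h).1
  · obtain ⟨_, z, hz, _⟩ := (mem_nb G).1 h
    exact absurd hz (notMem_empty z)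

theorem assemble (hc : G.Connected) (hcf : CF G)
    (hdeg : ∀ x, 3 ≤ (univ.filter (G.Adj x)).card) (A B : Finset V) (t : V) (ht : t ∉ A)
    (hall : ∀ X ⊆ A, X.card ≤ (nb G B X).card) (c0 : V → Bool)
    (hT : ∀ v, v ∉ A → ∃ y z, y ∉ B ∧ z ∉ B ∧ G.Adj v y ∧ G.Adj v z ∧ c0 y ≠ c0 z) :
    ∃ c, Good G c := by
  obtain ⟨m, hinj, hm⟩ := exists_matching G A B hall
  obtain ⟨c, hc1, hc2⟩ := grow G m A (fun v hv => (hm v hv).2) hinj (by
    intro Y hY hne
    by_contra hcon
    push Not at hcon
    have hsub : nb G univ Y ⊆ Y.image m := by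
      intro y hy
      obtain ⟨_, x, hx, hadj⟩ := (mem_nb G).1 hy
      exact hcon x hx y hadj
    have h1 : (nb G univ Y).card ≤ Y.card := (card_le_card hsub).trans card_image_le
    have h2 := surplus_three G hc hcf hdeg Y t (fun h => ht (hY h)) hne
    omega) c0
  refine ⟨c, fun v => ?_⟩
  by_cases hv : v ∈ A
  · exact hc2 v hv
  · obtain ⟨y, z, hy, hz, h1, h2, h3⟩ := hT v hv
    have hk : ∀ w, w ∉ B → c w = c0 w := by
      intro w hw
      apply hc1
      intro h
      obtain ⟨u, hu, rfl⟩ := mem_image.1 h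
      exact hw (hm u hu).1
    exact ⟨y, z, h1, h2, by rw [hk y hy, hk z hz]; exact h3⟩

theorem case_c4 (hc : G.Connected) (hcf : CF G)
    (hdeg : ∀ x, 3 ≤ (univ.filter (G.Adj x)).card) (u w x y : V) (huw : u ≠ w) (hxy : x ≠ y)
    (hux : G.Adj u x) (huy : G.Adj u y) (hwx : G.Adj w x) (hwy : G.Adj w y) :
    ∃ c, Good G c := by
  apply assemble G hc hcf hdeg (univ \ {u, w}) (univ \ {x, y}) u (by simp) _
    (fun z => decide (z = x))
  · intro v hv
    have hv' : v = u ∨ v = w := by
      by_contra h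
      push Not at h
      exact hv (by simp [h.1, h.2])
    refine ⟨x, y, by simp, by simp, ?_, ?_, by simp [hxy.symm]⟩
    · rcases hv' with rfl | rfl <;> assumption
    · rcases hv' with rfl | rfl <;> assumption
  intro X hX
  have huX : u ∉ X := fun h => by simpa using hX h
  have hwX : w ∉ X := fun h => by simpa using hX h
  by_contra hcon
  push Not at hcon
  have hsub : nb G univ X ⊆ nb G (univ \ {x, y}) X ∪ {x, y} := by
    intro z hz
    obtain ⟨_, p, hp, hadj⟩ := (mem_nb G).1 hz
    by_cases hz' : z ∈ ({x, y} : Finset V)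
    · exact mem_union_right _ hz'
    · exact mem_union_left _ ((mem_nb G).2 ⟨mem_sdiff.2 ⟨mem_univ _, hz'⟩, p, hp, hadj⟩)
  have hcard2 : ({x, y} : Finset V).card ≤ 2 := Finset.card_le_two
  have hN : (nb G univ X).card ≤ X.card + 1 := by
    have h1 := card_le_card hsub
    have h2 := card_union_le (nb G (univ \ {x, y}) X) ({x, y} : Finset V)
    omega
  have h1 := count_le G hcf univ X 3 fun x _ => hdeg x
  have h2 := card_union_eq G univ X
  have h3 := card_le_card (union_subset_nb G (subset_univ X))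
  rcases (iso G X).eq_empty_or_nonempty with hI | hI
  · -- no isolated vertices
    have hXsub : X ⊆ nb G univ X := by
      have := union_subset_nb G (subset_univ X)
      rw [hI, sdiff_empty] at this
      exact subset_union_left.trans this
    by_cases hxX : x ∈ X ∨ y ∈ X
    · have hu : u ∈ nb G univ X := by
        rcases hxX with h | h
        · exact (mem_nb G).2 ⟨mem_univ _, x, h, hux.symm⟩
        · exact (mem_nb G).2 ⟨mem_univ _, y, h, huy.symm⟩
      have hw : w ∈ nb G univ X := by
        rcases hxX with h | h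
        · exact (mem_nb G).2 ⟨mem_univ _, x, h, hwx.symm⟩
        · exact (mem_nb G).2 ⟨mem_univ _, y, h, hwy.symm⟩
      have hs : insert u (insert w X) ⊆ nb G univ X :=
        insert_subset hu (insert_subset hw hXsub)
      have := card_le_card hs
      rw [card_insert_of_notMem (by simp [huw, huX]), card_insert_of_notMem hwX] at this
      omega
    · push Not at hxX
      have hs : X ⊆ nb G (univ \ {x, y}) X := by
        intro z hz
        obtain ⟨_, p, hp, hadj⟩ := (mem_nb G).1 (hXsub hz)
        refine (mem_nb G).2 ⟨?_, p, hp, hadj⟩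
        simp only [mem_sdiff, mem_univ, mem_insert, mem_singleton, true_and]
        rintro (rfl | rfl)
        · exact hxX.1 hz
        · exact hxX.2 hz
      have := card_le_card hs
      omega
  · obtain ⟨p, hp⟩ := hI
    have hnp : ∀ q ∈ iso G X, univ.filter (G.Adj q) ⊆ nb G univ (iso G X) := by
      intro q hq z hz
      exact (mem_nb G).2 ⟨mem_univ _, q, hq, (mem_filter.1 hz).2⟩
    have h4 : 3 ≤ (nb G univ (iso G X)).card := (hdeg p).trans (card_le_card (hnp p hp))
    have h5 : 0 < (iso G X).card := card_pos.2 ⟨p, hp⟩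
    have hI2 : (iso G X).card = 2 := by omega
    have hN3 : (nb G univ (iso G X)).card = 3 := by omega
    have hall : ∀ q ∈ iso G X, ∀ z ∈ nb G univ (iso G X), G.Adj q z := by
      intro q hq z hz
      have := eq_of_subset_of_card_le (hnp q hq) (by have := hdeg q; omega)
      rw [← this] at hz
      exact (mem_filter.1 hz).2
    obtain ⟨p, q, hpq, hI⟩ := card_eq_two.1 hI2
    have hp : p ∈ iso G X := by rw [hI]; simp
    have hq : q ∈ iso G X := by rw [hI]; simp
    have hnpq : ¬ G.Adj p q := ((mem_iso G).1 hp).2 q (iso_subset G X hq)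
    have hclos : ∀ a ∈ nb G univ (iso G X), ∀ b, G.Adj a b → b ≠ p → b ≠ q →
        b ∈ nb G univ (iso G X) := by
      intro a ha b hab hbp hbq
      rcases hcf a b p q hab (hall p hp a ha).symm (hall q hq a ha).symm hbp hbq hpq with h | h | h
      · exact (mem_nb G).2 ⟨mem_univ _, p, hp, h.symm⟩
      · exact (mem_nb G).2 ⟨mem_univ _, q, hq, h.symm⟩
      · exact absurd h hnpq
    have heq : nb G univ X = (X \ iso G X) ∪ nb G univ (iso G X) :=
      (eq_of_subset_of_card_le (union_subset_nb G (subset_univ X)) (by omega)).symm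
    have hxyN : ∀ z, z = x ∨ z = y → z ∈ nb G univ X := by
      intro z hz
      by_contra hzN
      have hs : nb G univ X ⊆ nb G (univ \ {x, y}) X ∪ (({x, y} : Finset V).erase z) := by
        intro r hr
        rcases mem_union.1 (hsub hr) with h | h
        · exact mem_union_left _ h
        · exact mem_union_right _ (mem_erase.2 ⟨fun hrz => hzN (hrz ▸ hr), h⟩)
      have e1 := card_le_card hs
      have e2 := card_union_le (nb G (univ \ {x, y}) X) (({x, y} : Finset V).erase z)
      have e3 : (({x, y} : Finset V).erase z).card ≤ 1 := by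
        rw [card_erase_of_mem (by simpa using hz)]
        omega
      omega
    have hxyI : ∀ z, z = x ∨ z = y → z ∈ nb G univ (iso G X) := by
      intro z hz
      have hzu : G.Adj u z := by rcases hz with rfl | rfl <;> assumption
      have := hxyN z hz
      rw [heq] at this
      rcases mem_union.1 this with h | h
      · have hzX := (mem_sdiff.1 h).1
        have huN : u ∈ nb G univ X := (mem_nb G).2 ⟨mem_univ _, z, hzX, hzu.symm⟩
        rw [heq] at huN
        rcases mem_union.1 huN with h' | h'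
        · exact absurd (mem_sdiff.1 h').1 huX
        · exact hclos u h' z hzu (fun e => (mem_sdiff.1 h).2 (e ▸ hp))
            (fun e => (mem_sdiff.1 h).2 (e ▸ hq))
      · exact h
    have hx := hxyI x (Or.inl rfl)
    have hy := hxyI y (Or.inr rfl)
    have hu := hclos x hx u hux.symm (fun e => huX (e ▸ iso_subset G X hp))
      (fun e => huX (e ▸ iso_subset G X hq))
    have hw := hclos x hx w hwx.symm (fun e => hwX (e ▸ iso_subset G X hp))
      (fun e => hwX (e ▸ iso_subset G X hq))
    have hs : ({u, w, x, y} : Finset V) ⊆ nb G univ (iso G X) := by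
      intro r hr
      simp only [mem_insert, mem_singleton] at hr
      rcases hr with rfl | rfl | rfl | rfl <;> assumption
    have := card_le_card hs
    rw [card_insert_of_notMem (by simp [huw, hux.ne, huy.ne]),
      card_insert_of_notMem (by simp [hwx.ne, hwy.ne]), card_pair hxy] at this
    omega

/-- no two vertices have two common neighbours -/
def NoC4 (G : SimpleGraph V) : Prop :=
  ∀ u w x y, u ≠ w → x ≠ y → G.Adj u x → G.Adj u y → G.Adj w x → G.Adj w y → False

theorem case_tri (hc : G.Connected) (hcf : CF G)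
    (hdeg : ∀ x, 3 ≤ (univ.filter (G.Adj x)).card) (h4 : NoC4 G) (a b c d e f : V)
    (hab : G.Adj a b) (hac : G.Adj a c) (hbc : G.Adj b c) (had : G.Adj a d)
    (hde : G.Adj d e) (hdf : G.Adj d f) (hef : G.Adj e f)
    (hdb : d ≠ b) (hdc : d ≠ c) (hea : e ≠ a) (hfa : f ≠ a)
    (hz : ∀ x, G.Adj x a → G.Adj x d → 4 ≤ (univ.filter (G.Adj x)).card) :
    ∃ col, Good G col := by
  have hnbd : ¬ G.Adj b d := fun h => h4 a b c d hab.ne hdc.symm hac had hbc h
  have hncd : ¬ G.Adj c d := fun h => h4 a c b d hac.ne hdb.symm hab had hbc.symm h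
  have heb : e ≠ b := fun h => hnbd (h ▸ hde.symm)
  have hec : e ≠ c := fun h => hncd (h ▸ hde.symm)
  have hfb : f ≠ b := fun h => hnbd (h ▸ hdf.symm)
  have hfc : f ≠ c := fun h => hncd (h ▸ hdf.symm)
  set W : Finset V := univ \ {a, b, c, d} with hW
  have memW : ∀ x, x ∈ W ↔ x ≠ a ∧ x ≠ b ∧ x ≠ c ∧ x ≠ d := by
    intro x
    simp [hW]
  have heW : e ∈ W := (memW e).2 ⟨hea, heb, hec, hde.ne.symm⟩
  have hfW : f ∈ W := (memW f).2 ⟨hfa, hfb, hfc, hdf.ne.symm⟩
  have hdegW : ∀ x ∈ W, 2 ≤ (W.filter (G.Adj x)).card := by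
    intro x hx
    obtain ⟨hxa, hxb, hxc, hxd⟩ := (memW x).1 hx
    have n1 : ¬ (G.Adj x a ∧ G.Adj x b) := fun h =>
      h4 a b x c hab.ne hxc h.1.symm hac h.2.symm hbc
    have n2 : ¬ (G.Adj x a ∧ G.Adj x c) := fun h =>
      h4 a c x b hac.ne hxb h.1.symm hab h.2.symm hbc.symm
    have n3 : ¬ (G.Adj x b ∧ G.Adj x c) := fun h =>
      h4 b c x a hbc.ne hxa h.1.symm hab.symm h.2.symm hac.symm
    have n4 : ¬ (G.Adj x b ∧ G.Adj x d) := fun h =>
      h4 b d x a hdb.symm hxa h.1.symm hab.symm h.2.symm had.symm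
    have n5 : ¬ (G.Adj x c ∧ G.Adj x d) := fun h =>
      h4 c d x a hdc.symm hxa h.1.symm hac.symm h.2.symm had.symm
    have hsub : ∀ T : Finset V, (∀ r, G.Adj x r → r = a ∨ r = b ∨ r = c ∨ r = d → r ∈ T) →
        (univ.filter (G.Adj x)).card ≤ (W.filter (G.Adj x)).card + T.card := by
      intro T hT
      refine le_trans (card_le_card ?_) (card_union_le _ _)
      intro r hr
      have hr' := (mem_filter.1 hr).2
      by_cases hrW : r ∈ W
      · exact mem_union_left _ (mem_filter.2 ⟨hrW, hr'⟩)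
      · refine mem_union_right _ (hT r hr' ?_)
        rw [memW] at hrW
        tauto
    have h3 := hdeg x
    by_cases hxad : G.Adj x a ∧ G.Adj x d
    · have e1 := hz x hxad.1 hxad.2
      have e2 := hsub {a, d} (by
        rintro r hr (rfl | rfl | rfl | rfl)
        · simp
        · exact absurd ⟨hxad.1, hr⟩ n1
        · exact absurd ⟨hxad.1, hr⟩ n2
        · simp)
      have e3 : ({a, d} : Finset V).card ≤ 2 := Finset.card_le_two
      omega
    · have one : ∀ t : V, (∀ r, G.Adj x r → r = a ∨ r = b ∨ r = c ∨ r = d → r = t) →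
          2 ≤ (W.filter (G.Adj x)).card := by
        intro t ht
        have e2 := hsub {t} fun r hr h => mem_singleton.2 (ht r hr h)
        rw [card_singleton] at e2
        omega
      by_cases q1 : G.Adj x a
      · apply one a
        rintro r hr (rfl | rfl | rfl | rfl) <;> tauto
      by_cases q2 : G.Adj x b
      · apply one b
        rintro r hr (rfl | rfl | rfl | rfl) <;> tauto
      by_cases q3 : G.Adj x c
      · apply one c
        rintro r hr (rfl | rfl | rfl | rfl) <;> tauto
      · apply one d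
        rintro r hr (rfl | rfl | rfl | rfl) <;> tauto
  apply assemble G hc hcf hdeg (W.erase f) (W.erase e) f (by simp) _
    (fun z => decide (z = a ∨ z = d))
  · intro v hv
    have haB : a ∉ W.erase e := fun h => ((memW a).1 (mem_of_mem_erase h)).1 rfl
    have hbB : b ∉ W.erase e := fun h => ((memW b).1 (mem_of_mem_erase h)).2.1 rfl
    have hcB : c ∉ W.erase e := fun h => ((memW c).1 (mem_of_mem_erase h)).2.2.1 rfl
    have hdB : d ∉ W.erase e := fun h => ((memW d).1 (mem_of_mem_erase h)).2.2.2 rfl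
    have heB : e ∉ W.erase e := notMem_erase e W
    have hv' : v = a ∨ v = b ∨ v = c ∨ v = d ∨ v = f := by
      rw [mem_erase, memW] at hv
      tauto
    rcases hv' with rfl | rfl | rfl | rfl | rfl
    · exact ⟨b, d, hbB, hdB, hab, had, by simp [hab.ne.symm, hdb.symm]⟩
    · exact ⟨a, c, haB, hcB, hab.symm, hbc, by simp [hac.ne.symm, hdc.symm]⟩
    · exact ⟨a, b, haB, hbB, hac.symm, hbc.symm, by simp [hab.ne.symm, hdb.symm]⟩
    · exact ⟨a, e, haB, heB, had.symm, hde, by simp [hea, hde.ne.symm]⟩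
    · exact ⟨d, e, hdB, heB, hdf.symm, hef.symm, by simp [hea, hde.ne.symm]⟩
  intro X hX
  have hXW : X ⊆ W := hX.trans (erase_subset _ _)
  have hfX : f ∉ X := fun h => notMem_erase f W (hX h)
  have h1 := hall_le G hcf hXW fun x hx => hdegW x (hXW hx)
  have hnb : nb G (W.erase e) X = (nb G W X).erase e := by
    ext r
    simp only [mem_nb, mem_erase]
    tauto
  rw [hnb]
  by_cases heN : e ∈ nb G W X
  swap
  · rw [erase_eq_of_notMem heN]
    exact h1
  rw [card_erase_of_mem heN]
  by_contra hcon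
  obtain ⟨t1, _, t3⟩ := tight G hcf hXW (fun x hx => hdegW x (hXW hx)) (by omega)
  have hclaw : ∀ g g' : V, G.Adj d g → G.Adj d g' → G.Adj g g' → g' ∉ iso G X →
      g ∉ nb G W (iso G X) := by
    intro g g' hdg hdg' hgg' hg' hg
    obtain ⟨u, hu, u', hu', hne, hgu, hgu'⟩ := t3 g hg
    have hud : ∀ u ∈ iso G X, d ≠ u := fun u hu h =>
      ((memW u).1 (hXW (iso_subset G X hu))).2.2.2 h.symm
    have hnd : ∀ u ∈ iso G X, G.Adj g u → ¬ G.Adj d u := fun u hu hgu h =>
      h4 d g u g' hdg.ne (fun e => hg' (e ▸ hu)) h hdg' hgu hgg'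
    rcases hcf g d u u' hdg.symm hgu hgu' (hud u hu) (hud u' hu') hne with h | h | h
    · exact hnd u hu hgu h
    · exact hnd u' hu' hgu' h
    · exact ((mem_iso G).1 hu).2 u' (iso_subset G X hu') h
  rw [t1] at heN
  rcases mem_union.1 heN with h | h
  · have hfN : f ∈ nb G W X := (mem_nb G).2 ⟨hfW, e, (mem_sdiff.1 h).1, hef⟩
    rw [t1] at hfN
    rcases mem_union.1 hfN with h' | h'
    · exact hfX (mem_sdiff.1 h').1
    · exact hclaw f e hdf hde hef.symm (mem_sdiff.1 h).2 h'
  · exact hclaw e f hde hdf hef (fun h' => hfX (iso_subset G X h')) h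

omit [DecidableRel G.Adj] [Fintype V] in
theorem edge_in (hcf : CF G) (v : V) (S : Finset V) (hS : ∀ s ∈ S, G.Adj v s) (h3 : 3 ≤ S.card) :
    ∃ p ∈ S, ∃ q ∈ S, G.Adj p q := by
  obtain ⟨x, y, z, hx, hy, hz, hxy, hxz, hyz⟩ := two_lt_card_iff.1 h3
  rcases hcf v x y z (hS x hx) (hS y hy) (hS z hz) hxy hxz hyz with h | h | h
  · exact ⟨x, hx, y, hy, h⟩
  · exact ⟨x, hx, z, hz, h⟩
  · exact ⟨y, hy, z, hz, h⟩

theorem exists_good (hc : G.Connected) (hcf : CF G)
    (hdeg : ∀ x, 3 ≤ (univ.filter (G.Adj x)).card) : ∃ col, Good G col := by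
  by_cases h4 : NoC4 G
  swap
  · unfold NoC4 at h4
    push Not at h4
    obtain ⟨u, w, x, y, h1, h2, h3, h4, h5, h6, _⟩ := h4
    exact case_c4 G hc hcf hdeg u w x y h1 h2 h3 h4 h5 h6
  by_cases hd4 : ∀ x, 4 ≤ (univ.filter (G.Adj x)).card
  · obtain ⟨a⟩ := hc.nonempty
    obtain ⟨d, hd⟩ : (univ.filter (G.Adj a)).Nonempty := card_pos.1 (by have := hd4 a; omega)
    have had := (mem_filter.1 hd).2
    have herase : ∀ p q : V, ∃ r s, G.Adj p r ∧ G.Adj p s ∧ G.Adj r s ∧ r ≠ q ∧ s ≠ q := by
      intro p q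
      obtain ⟨r, hr, s, hs, hrs⟩ := edge_in G hcf p ((univ.filter (G.Adj p)).erase q)
        (fun s hs => (mem_filter.1 (mem_of_mem_erase hs)).2) (by
          have e1 := pred_card_le_card_erase (s := univ.filter (G.Adj p)) (a := q)
          have e2 := hd4 p
          omega)
      exact ⟨r, s, (mem_filter.1 (mem_of_mem_erase hr)).2, (mem_filter.1 (mem_of_mem_erase hs)).2,
        hrs, (mem_erase.1 hr).1, (mem_erase.1 hs).1⟩
    obtain ⟨b, c, hab, hac, hbc, hbd, hcd⟩ := herase a d
    obtain ⟨e, f, hde, hdf, hef, hea, hfa⟩ := herase d a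
    exact case_tri G hc hcf hdeg h4 a b c d e f hab hac hbc had hde hdf hef hbd.symm hcd.symm
      hea hfa fun x _ _ => hd4 x
  · push Not at hd4
    obtain ⟨a, ha⟩ := hd4
    have ha3 : (univ.filter (G.Adj a)).card = 3 := by have := hdeg a; omega
    obtain ⟨b, hb, c, hc', hbc⟩ := edge_in G hcf a (univ.filter (G.Adj a))
      (fun s hs => (mem_filter.1 hs).2) (hdeg a)
    have hab := (mem_filter.1 hb).2
    have hac := (mem_filter.1 hc').2
    have hcard1 : (((univ.filter (G.Adj a)).erase b).erase c).card = 1 := by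
      rw [card_erase_of_mem (mem_erase.2 ⟨hbc.ne.symm, hc'⟩), card_erase_of_mem hb, ha3]
    obtain ⟨d, hd⟩ := card_eq_one.1 hcard1
    have hdm : d ∈ ((univ.filter (G.Adj a)).erase b).erase c := by rw [hd]; simp
    have hdc : d ≠ c := (mem_erase.1 hdm).1
    have hdb : d ≠ b := (mem_erase.1 (mem_of_mem_erase hdm)).1
    have had : G.Adj a d := (mem_filter.1 (mem_of_mem_erase (mem_of_mem_erase hdm))).2
    have hnc : ∀ x, G.Adj x a → G.Adj x d → False := by
      intro x hxa hxd
      by_cases hxb : x = b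
      · subst hxb
        exact h4 a x c d hab.ne hdc.symm hac had hbc hxd
      by_cases hxc : x = c
      · subst hxc
        exact h4 a x b d hac.ne hdb.symm hab had hbc.symm hxd
      have : x ∈ ((univ.filter (G.Adj a)).erase b).erase c :=
        mem_erase.2 ⟨hxc, mem_erase.2 ⟨hxb, mem_filter.2 ⟨mem_univ _, hxa.symm⟩⟩⟩
      rw [hd, mem_singleton] at this
      exact hxd.ne this
    obtain ⟨e, he, f, hf, hef⟩ : ∃ e ∈ (univ.filter (G.Adj d)).erase a,
        ∃ f ∈ (univ.filter (G.Adj d)).erase a, e ≠ f := by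
      apply one_lt_card.1
      have e1 := pred_card_le_card_erase (s := univ.filter (G.Adj d)) (a := a)
      have e2 := hdeg d
      omega
    have hde := (mem_filter.1 (mem_of_mem_erase he)).2
    have hdf := (mem_filter.1 (mem_of_mem_erase hf)).2
    have hea := (mem_erase.1 he).1
    have hfa := (mem_erase.1 hf).1
    have hefa : G.Adj e f := by
      rcases hcf d a e f had.symm hde hdf hea.symm hfa.symm hef with h | h | h
      · exact (hnc e h.symm hde.symm).elim
      · exact (hnc f h.symm hdf.symm).elim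
      · exact h
    exact case_tri G hc hcf hdeg h4 a b c d e f hab hac hbc had hde hdf hefa hdb hdc hea hfa
      fun x h1 h2 => (hnc x h1 h2).elim

theorem exists_partition (hc : G.Connected) (hcf : CF G)
    (hdeg : ∀ x, 3 ≤ (univ.filter (G.Adj x)).card) :
    ∃ S : Finset V, IsTotalDom G S ∧ IsTotalDom G Sᶜ := by
  obtain ⟨c, hcol⟩ := exists_good G hc hcf hdeg
  refine ⟨univ.filter fun y => c y = true, fun v => ?_, fun v => ?_⟩
  · obtain ⟨y, z, hy, hz, hne⟩ := hcol v
    by_cases h : c y = true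
    · exact ⟨y, by simp [h], hy⟩
    · refine ⟨z, ?_, hz⟩
      revert hne h
      cases c y <;> cases hz' : c z <;> simp [hz']
  · obtain ⟨y, z, hy, hz, hne⟩ := hcol v
    by_cases h : c y = true
    · refine ⟨z, ?_, hz⟩
      revert hne h
      cases c y <;> cases hz' : c z <;> simp [hz']
    · exact ⟨y, by simp [h], hy⟩

theorem q2_bound (hc : G.Connected) (hcf : CF G)
    (hdeg : ∀ x, 3 ≤ (univ.filter (G.Adj x)).card) : 2 ≤ FTD G := by
  have : Nonempty V := hc.nonempty
  obtain ⟨S, h1, h2⟩ := exists_partition G hc hcf hdeg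
  have key := le_FTD G {S, Sᶜ} (by simp) (by
    intro T hT
    simp only [Multiset.insert_eq_cons, Multiset.mem_cons, Multiset.mem_singleton] at hT
    rcases hT with rfl | rfl <;> assumption) 1 (by
    intro v
    rw [Multiset.insert_eq_cons, Multiset.countP_cons, ← Multiset.cons_zero, Multiset.countP_cons]
    by_cases h : v ∈ S <;> simp [h])
  simpa using key

end Pool.Agent.MP_7cc102_co.H75
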